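import Mathlib

set_option autoImplicit false

open Finset Metric Module
open scoped unitInterval

namespace Pool.Agent.Results.MP_8121b4_gt.LensSU5

/-! ## Lens spaces as topological spaces -/


/-- The unit sphere S^3 in ℂ². -/
abbrev S3 : Type := sphere (0 : EuclideanSpace ℂ (Fin 2)) 1

/-- (z, w) ~ (ζ z, ζ^q w) for the p-th roots of unity ζ. -/
def lensSetoid (p q : ℕ) : Setoid S3 where
  r x y := ∃ ζ ∈ rootsOfUnity p ℂ, x.1 0 = ζ * y.1 0 ∧ x.1 1 = ζ ^ q * y.1 1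
  iseqv := by
    constructor
    · intro x
      exact ⟨1, one_mem _, by simp, by simp⟩
    · rintro x y ⟨ζ, hζ, h0, h1⟩
      refine ⟨ζ⁻¹, inv_mem hζ, ?_, ?_⟩
      · rw [h0]; simp
      · rw [h1]; simp
    · rintro x y z ⟨ζ, hζ, h0, h1⟩ ⟨ξ, hξ, k0, k1⟩
      refine ⟨ζ * ξ, mul_mem hζ hξ, ?_, ?_⟩
      · rw [h0, k0]; push_cast; ring
      · rw [h1, k1]; push_cast; ring

/-- The lens space L(p,q), with the quotient topology. -/
def LensSpace (p q : ℕ) : Type := Quotient (lensSetoid p q)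

instance (p q : ℕ) : TopologicalSpace (LensSpace p q) :=
  inferInstanceAs (TopologicalSpace (Quotient (lensSetoid p q)))

/-- X and Y have isomorphic fundamental groups, for all choices of base points. -/
def SamePi1 (X Y : Type) [TopologicalSpace X] [TopologicalSpace Y] : Prop :=
  ∀ (x : X) (y : Y), Nonempty (FundamentalGroup X x ≃* FundamentalGroup Y y)


/-! ## Quantum SU(N) invariants of lens spaces from surgery on chains of unknots -/

/-- The colours of the quantum SU(N) invariant at r = k + N: the vectors l = λ + ρ for the dominant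
weights λ of SU(N) of level at most k, written as r > l 0 > l 1 > ... > l (N-1) = 0
(weights of SU(N) are integer vectors modulo the all-ones vector). -/
def colours (N r : ℕ) : Finset (Fin N → ℕ) :=
  (Fintype.piFinset fun _ : Fin N => Finset.range r).filter
    fun l => StrictAnti l ∧ ∀ i : Fin N, (i : ℕ) + 1 = N → l i = 0

/-- The half sum of positive roots ρ, as the colour (N-1, ..., 1, 0) of the trivial module. -/
def rho (N : ℕ) : Fin N → ℕ := fun i => N - 1 - (i : ℕ)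

/-- The inner product on weights of SU(N) for which roots have squared length 2. -/
noncomputable def ip {N : ℕ} (l m : Fin N → ℕ) : ℝ :=
  ∑ i, (l i : ℝ) * (m i : ℝ) - (∑ i, (l i : ℝ)) * (∑ i, (m i : ℝ)) / N

/-- The (unnormalised) S-matrix: alternating sum over the Weyl group S_N of
exp (-2 π i (w l, m) / r). -/
noncomputable def smat {N : ℕ} (r : ℕ) (l m : Fin N → ℕ) : ℂ :=
  ∑ w : Equiv.Perm (Fin N), ((Equiv.Perm.sign w : ℤ) : ℂ) *
    Complex.exp (-(2 * Real.pi * Complex.I) * (ip (l ∘ w) m : ℂ) / r)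

/-- The twist exp (π i ((l, l) - (ρ, ρ)) / r): the effect of a positive full twist. -/
noncomputable def twist {N : ℕ} (r : ℕ) (l : Fin N → ℕ) : ℂ :=
  Complex.exp (Real.pi * Complex.I * ((ip l l - ip (rho N) (rho N) : ℝ) : ℂ) / r)

/-- The invariant of the 0-framed Hopf link coloured by l and m. -/
noncomputable def hopf {N : ℕ} (r : ℕ) (l m : Fin N → ℕ) : ℂ :=
  smat r l m / smat r (rho N) (rho N)

/-- The quantum dimension, i.e. the invariant of the 0-framed unknot coloured by l. -/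
noncomputable def qdim {N : ℕ} (r : ℕ) (l : Fin N → ℕ) : ℂ := hopf r l (rho N)

/-- The surgery sums C_+ (e = 1) and C_- (e = -1) of the unknots with framing 1 and -1. -/
noncomputable def gauss (N r : ℕ) (e : ℤ) : ℂ := ∑ l ∈ colours N r, qdim r l ^ 2 * twist r l ^ e

/-- For a chain of unknots with framings a = [a_1, ..., a_n], consecutive ones linked once,
chainSum r a (rho N) is the sum over all colourings l_1, ..., l_n of
qdim l_1 * ... * qdim l_n * J(l_1, ..., l_n), J the coloured framed link invariant of the chain. Since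
J = (∏ twist l_i ^ a_i) * (∏_{i<n} hopf l_i l_(i+1)) / (∏_{1<i<n} qdim l_i), this is the sum of
hopf ρ l_1 * twist l_1 ^ a_1 * hopf l_1 l_2 * twist l_2 ^ a_2 * ... * twist l_n ^ a_n * hopf l_n ρ. -/
noncomputable def chainSum {N : ℕ} (r : ℕ) : List ℤ → (Fin N → ℕ) → ℂ
  | [], l => hopf r l (rho N)
  | a :: as, l => ∑ m ∈ colours N r, hopf r l m * twist r m ^ a * chainSum r as m


/-- linking matrix of the chain of unknots with framings a -/
def linking (a : List ℤ) : Matrix (Fin a.length) (Fin a.length) ℝ :=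
  Matrix.of fun i j => if i = j then ((a.get i : ℤ) : ℝ)
    else if (i : ℕ) + 1 = j ∨ (j : ℕ) + 1 = i then 1 else 0

theorem linking_symm (a : List ℤ) : (linking a).IsHermitian := by
  ext i j
  by_cases h : i = j
  · subst h; simp [linking]
  · have h' : ¬ j = i := fun e => h e.symm
    simp [linking, h, h', or_comm]

/-- number of positive eigenvalues of the linking matrix -/
noncomputable def bplus (a : List ℤ) : ℕ := Fintype.card {i // 0 < (linking_symm a).eigenvalues i}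

/-- number of negative eigenvalues of the linking matrix -/
noncomputable def bminus (a : List ℤ) : ℕ := Fintype.card {i // (linking_symm a).eigenvalues i < 0}


/-- The Reshetikhin-Turaev quantum SU(N) invariant at r = k + N of the closed 3-manifold obtained from
S^3 by surgery along the chain with framings a, normalised to be 1 on S^3:
C_+ ^ (-b_+) * C_- ^ (-b_-) * chainSum. -/
noncomputable def tau (N r : ℕ) (a : List ℤ) : ℂ :=
  gauss N r 1 ^ (-(bplus a : ℤ)) * gauss N r (-1) ^ (-(bminus a : ℤ)) * chainSum r a (rho N)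

/-- The pair (p, q) with p / q = a_1 - 1 / (a_2 - 1 / (... - 1 / a_n)): surgery along the chain with
framings a_1, ..., a_n gives the lens space L(p,q), up to orientation. -/
def chainFraction : List ℤ → ℤ × ℤ
  | [] => (1, 0)
  | a :: as => (a * (chainFraction as).1 - (chainFraction as).2, (chainFraction as).1)

/-! ## Spheres are simply connected -/
section sphere


variable {E : Type*} [NormedAddCommGroup E] [InnerProductSpace ℝ E] [FiniteDimensional ℝ E]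

/-- normalisation to the unit sphere of a nonvanishing continuous map -/
noncomputable def nrm {Y : Type*} [TopologicalSpace Y] (f : C(Y, E)) (hf : ∀ y, f y ≠ 0) : C(Y, sphere (0 : E) 1) where
  toFun y := ⟨‖f y‖⁻¹ • f y, by
    rw [mem_sphere_zero_iff_norm, norm_smul, norm_inv, norm_norm, inv_mul_cancel₀]
    exact norm_ne_zero_iff.mpr (hf y)⟩
  continuous_toFun := by
    refine Continuous.subtype_mk ?_ _
    refine Continuous.smul (Continuous.inv₀ (by fun_prop) fun y => norm_ne_zero_iff.mpr (hf y)) (by fun_prop)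

omit [FiniteDimensional ℝ E] in
lemma compl_contractible {w : E} (hw : ‖w‖ = 1) :
    ContractibleSpace (({⟨w, by simp [hw]⟩}ᶜ : Set (sphere (0 : E) 1)) : Type _) := by
  have h1 := (stereographic hw).toHomeomorphSourceTarget
  rw [stereographic_source, stereographic_target] at h1
  have h2 : ContractibleSpace (Set.univ : Set (ℝ ∙ w)ᗮ) :=
    (Homeomorph.Set.univ _).contractibleSpace
  exact h1.contractibleSpace

lemma exists_missed (hE : 2 < finrank ℝ E) (f : C(I, E)) (n : ℕ) :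
    ∃ v : E, v ≠ 0 ∧ ∀ (s : ℝ) (t : I), s • bernsteinApproximation n f t ≠ v := by
  let G : ℝ × ℝ → E := fun st => st.1 • ∑ k : Fin (n + 1),
    (Polynomial.aeval st.2 (bernsteinPolynomial ℝ n k)) • f (bernstein.z k)
  have hG : ContDiff ℝ 1 G := by
    refine ContDiff.smul contDiff_fst ?_
    refine ContDiff.sum fun k _ => ?_
    refine ContDiff.smul ?_ contDiff_const
    exact (Polynomial.contDiff_aeval _ _).comp contDiff_snd
  have hd : Dense (Set.range G)ᶜ := hG.dense_compl_range_of_finrank_lt_finrank (by simpa using hE)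
  obtain ⟨v, hv⟩ := hd.nonempty
  refine ⟨v, ?_, ?_⟩
  · rintro rfl
    exact hv ⟨(0, 0), by simp [G]⟩
  · intro s t h
    apply hv
    refine ⟨(s, (t : ℝ)), ?_⟩
    rw [← h, bernsteinApproximation.apply]
    simp [G, bernstein]


theorem simplyConnected_sphere (hE : 2 < finrank ℝ E) : SimplyConnectedSpace (sphere (0 : E) 1) := by
  rw [simply_connected_iff_loops_nullhomotopic]
  have hrank : 1 < Module.rank ℝ E := by
    rw [← Module.finrank_eq_rank]
    exact_mod_cast (by omega : 1 < finrank ℝ E)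
  refine ⟨isPathConnected_iff_pathConnectedSpace.mp (isPathConnected_sphere hrank 0 zero_le_one), ?_⟩
  intro x γ
  -- Bernstein approximation
  let f : C(I, E) := ⟨fun t => (γ t : E), by fun_prop⟩
  have hlim := bernsteinApproximation_uniform f
  rw [Metric.tendsto_nhds] at hlim
  obtain ⟨n, hn1, hn0⟩ := ((hlim 1 one_pos).and (Filter.eventually_ge_atTop 1)).exists
  have hn : n ≠ 0 := by omega
  set g : C(I, E) := bernsteinApproximation n f with hg
  have hfn : ∀ t, ‖f t‖ = 1 := fun t => mem_sphere_zero_iff_norm.mp (γ t).2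
  have hclose : ∀ t, ‖g t - f t‖ < 1 := fun t => by
    rw [← dist_eq_norm]
    exact lt_of_le_of_lt (ContinuousMap.dist_apply_le_dist t) hn1
  -- the homotopy in the ambient space
  let H : C(I × I, E) := ⟨fun st => f st.2 + (st.1 : ℝ) • (g st.2 - f st.2), by fun_prop⟩
  have hH : ∀ st, H st ≠ 0 := by
    rintro ⟨s, t⟩ h0
    have h1 : f t = -((s : ℝ) • (g t - f t)) := eq_neg_of_add_eq_zero_left h0
    have h2 : ‖f t‖ = |(s : ℝ)| * ‖g t - f t‖ := by rw [h1, norm_neg, norm_smul, Real.norm_eq_abs, ← h1]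
    rw [hfn] at h2
    have h3 : |(s : ℝ)| ≤ 1 := by rw [abs_of_nonneg s.2.1]; exact s.2.2
    have h4 := hclose t
    nlinarith [norm_nonneg (g t - f t), abs_nonneg (s : ℝ)]
  have hgne : ∀ t, g t ≠ 0 := by
    intro t h0
    have := hH (1, t)
    apply this
    simp [H, h0]
  have hf0 : f 0 = x := by simp [f]
  have hf1 : f 1 = x := by simp [f]
  have hg0 : g 0 = x := by rw [hg, bernsteinApproximation.apply_zero, hf0]
  have hg1 : g 1 = x := by rw [hg, bernsteinApproximation.apply_one hn, hf1]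
  have hx : ‖(x : E)‖ = 1 := mem_sphere_zero_iff_norm.mp x.2
  let γ' : Path x x :=
    { toContinuousMap := nrm g hgne
      source' := by
        apply Subtype.ext
        simp [nrm, hg0, hx]
      target' := by
        apply Subtype.ext
        simp [nrm, hg1, hx] }
  have hhom : Path.Homotopic γ γ' := by
    refine ⟨{ toContinuousMap := nrm H hH, map_zero_left := ?_, map_one_left := ?_, prop' := ?_ }⟩
    · intro t
      apply Subtype.ext
      have : ‖(γ t : E)‖ = 1 := hfn t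
      simp [nrm, H, f, this]
    · intro t
      apply Subtype.ext
      have h1 : H (1, t) = g t := by simp [H]
      change ‖H (1, t)‖⁻¹ • H (1, t) = ‖g t‖⁻¹ • g t
      rw [h1]
    · intro s t ht
      rcases ht with rfl | rfl
      · apply Subtype.ext
        simp [nrm, H, hf0, hg0, hx]
      · apply Subtype.ext
        simp [nrm, H, hf1, hg1, hx]
  refine hhom.trans ?_
  -- the new loop misses a point
  obtain ⟨v, hv0, hv⟩ := exists_missed hE f n
  have hvn : ‖v‖ ≠ 0 := norm_ne_zero_iff.mpr hv0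
  have hw : ‖(‖v‖⁻¹ • v)‖ = 1 := by
    rw [norm_smul, norm_inv, norm_norm, inv_mul_cancel₀ hvn]
  let U : Set (sphere (0 : E) 1) := {⟨‖v‖⁻¹ • v, by simp [hw]⟩}ᶜ
  have hU : ContractibleSpace U := compl_contractible hw
  have hmem : ∀ t, γ' t ∈ U := by
    intro t ht
    have h1 : (γ' t : E) = ‖v‖⁻¹ • v := congrArg Subtype.val ht
    have h2 : ‖g t‖⁻¹ • g t = ‖v‖⁻¹ • v := h1
    apply hv (‖v‖ * ‖g t‖⁻¹) t
    rw [mul_smul, ← hg, h2, smul_smul, mul_inv_cancel₀ hvn, one_smul]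
  have hxU : x ∈ U := by simpa using hmem 0
  let δ : Path (⟨x, hxU⟩ : U) ⟨x, hxU⟩ :=
    { toFun := fun t => ⟨γ' t, hmem t⟩
      continuous_toFun := by fun_prop
      source' := by simp
      target' := by simp }
  have hδ : Path.Homotopic δ (Path.refl _) := SimplyConnectedSpace.paths_homotopic _ _
  have h3 := hδ.map ⟨Subtype.val, continuous_subtype_val⟩
  exact h3


end sphere

/-! ## The fundamental group of a lens space -/

lemma norm_root {p : ℕ} [NeZero p] (ζ : rootsOfUnity p ℂ) : ‖((ζ : ℂˣ) : ℂ)‖ = 1 := by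
  refine Complex.norm_eq_one_of_pow_eq_one (n := p) ?_ (NeZero.ne p)
  have h := congrArg Units.val ((mem_rootsOfUnity p (ζ : ℂˣ)).mp ζ.2)
  rwa [Units.val_pow_eq_pow_val, Units.val_one] at h

lemma mem_S3 (v : EuclideanSpace ℂ (Fin 2)) : v ∈ sphere (0 : EuclideanSpace ℂ (Fin 2)) 1 ↔
    ‖v 0‖ ^ 2 + ‖v 1‖ ^ 2 = 1 := by
  rw [mem_sphere_zero_iff_norm, EuclideanSpace.norm_eq, Fin.sum_univ_two, Real.sqrt_eq_one]

/-- The action of the p-th roots of unity. -/
@[reducible] noncomputable def lensAction (p q : ℕ) [NeZero p] : MulAction (rootsOfUnity p ℂ) S3 where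
  smul ζ x := ⟨WithLp.toLp 2 ![((ζ : ℂˣ) : ℂ) * x.1 0, ((ζ : ℂˣ) : ℂ) ^ q * x.1 1], by
    rw [mem_S3]
    simpa [norm_root] using (mem_S3 x.1).mp x.2⟩
  one_smul x := by
    apply Subtype.ext
    change WithLp.toLp 2 ![(((1 : rootsOfUnity p ℂ) : ℂˣ) : ℂ) * x.1 0, (((1 : rootsOfUnity p ℂ) : ℂˣ) : ℂ) ^ q * x.1 1] = x.1
    ext i
    fin_cases i <;> simp
  mul_smul ζ ξ x := by
    apply Subtype.ext
    change WithLp.toLp 2 ![(((ζ * ξ : rootsOfUnity p ℂ) : ℂˣ) : ℂ) * x.1 0, (((ζ * ξ : rootsOfUnity p ℂ) : ℂˣ) : ℂ) ^ q * x.1 1] =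
      WithLp.toLp 2 ![((ζ : ℂˣ) : ℂ) * (((ξ : ℂˣ) : ℂ) * x.1 0), ((ζ : ℂˣ) : ℂ) ^ q * (((ξ : ℂˣ) : ℂ) ^ q * x.1 1)]
    ext i
    fin_cases i
    · simp; ring
    · simp; ring

lemma smul_zero' (p q : ℕ) [NeZero p] (ζ : rootsOfUnity p ℂ) (x : S3) :
    letI := lensAction p q
    (ζ • x).1 0 = ((ζ : ℂˣ) : ℂ) * x.1 0 := rfl

lemma smul_one' (p q : ℕ) [NeZero p] (ζ : rootsOfUnity p ℂ) (x : S3) :
    letI := lensAction p q
    (ζ • x).1 1 = ((ζ : ℂˣ) : ℂ) ^ q * x.1 1 := rfl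

lemma S3_ext {x y : S3} (h0 : x.1 0 = y.1 0) (h1 : x.1 1 = y.1 1) : x = y := by
  apply Subtype.ext
  ext i
  fin_cases i
  · exact h0
  · exact h1

theorem covering (p q : ℕ) [NeZero p] (hpq : Nat.Coprime p q) :
    letI := lensAction p q
    IsQuotientCoveringMap (Quotient.mk (lensSetoid p q)) (rootsOfUnity p ℂ) := by
  let _ := lensAction p q
  have hcont : ContinuousConstSMul (rootsOfUnity p ℂ) S3 := by
    constructor
    intro ζ
    refine Continuous.subtype_mk ?_ _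
    refine (PiLp.continuous_toLp 2 _).comp ?_
    refine continuous_pi fun i => ?_
    fin_cases i
    · simp; fun_prop
    · simp; fun_prop
  have hcancel : IsCancelSMul (rootsOfUnity p ℂ) S3 := by
    rw [isCancelSMul_iff_eq_one_of_smul_eq]
    intro ζ x h
    have h0 : ((ζ : ℂˣ) : ℂ) * x.1 0 = x.1 0 := by
      rw [← smul_zero' p q ζ x]; exact congrArg (fun y : S3 => y.1 0) h
    have h1 : ((ζ : ℂˣ) : ℂ) ^ q * x.1 1 = x.1 1 := by
      rw [← smul_one' p q ζ x]; exact congrArg (fun y : S3 => y.1 1) h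
    have hp : (ζ : ℂˣ) ^ p = 1 := (mem_rootsOfUnity p (ζ : ℂˣ)).mp ζ.2
    have hζ : (ζ : ℂˣ) = 1 := by
      by_cases hx : x.1 0 = 0
      · have hx1 : x.1 1 ≠ 0 := by
          intro hx1
          have := (mem_S3 x.1).mp x.2
          simp [hx, hx1] at this
        have hq : ((ζ : ℂˣ) : ℂ) ^ q = 1 := mul_right_cancel₀ hx1 (by rw [h1, one_mul])
        have hq' : (ζ : ℂˣ) ^ q = 1 := by
          apply Units.ext; simpa using hq
        have hd : orderOf (ζ : ℂˣ) ∣ 1 := by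
          rw [← Nat.Coprime.gcd_eq_one hpq]
          exact Nat.dvd_gcd (orderOf_dvd_of_pow_eq_one hp) (orderOf_dvd_of_pow_eq_one hq')
        exact orderOf_eq_one_iff.mp (Nat.dvd_one.mp hd)
      · have : ((ζ : ℂˣ) : ℂ) = 1 := mul_right_cancel₀ hx (by rw [h0, one_mul])
        apply Units.ext; simpa using this
    exact Subtype.ext hζ
  refine isQuotientMap_quotient_mk'.isQuotientCoveringMap_of_properlyDiscontinuousSMul ?_
  intro x y
  rw [MulAction.mem_orbit_iff]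
  constructor
  · intro h
    obtain ⟨ζ, hζ, h0, h1⟩ := Quotient.exact h
    exact ⟨⟨ζ, hζ⟩, S3_ext h0.symm h1.symm⟩
  · rintro ⟨ζ, h⟩
    apply Quotient.sound
    refine ⟨(ζ : ℂˣ), ζ.2, ?_, ?_⟩
    · rw [← h]; rfl
    · rw [← h]; rfl

theorem simplyConnected_S3 : SimplyConnectedSpace S3 := by
  apply simplyConnected_sphere
  have : finrank ℝ (EuclideanSpace ℂ (Fin 2)) = 4 := by
    rw [finrank_real_of_complex]
    simp
  omega

/-- The fundamental group of L(p,q) is the group of p-th roots of unity. -/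
theorem pi1_lens (p q : ℕ) [NeZero p] (hpq : Nat.Coprime p q) (x : LensSpace p q) :
    Nonempty (FundamentalGroup (LensSpace p q) x ≃* (rootsOfUnity p ℂ)ᵐᵒᵖ) := by
  let _ := lensAction p q
  have := simplyConnected_S3
  have hc := covering p q hpq
  obtain ⟨e, he⟩ := Quotient.exists_rep x
  exact ⟨hc.fundamentalGroupEquiv ⟨e, he⟩⟩


/-! ## Signatures -/

lemma bplus_of_posDef (a : List ℤ) (h : (linking a).PosDef) : bplus a = a.length := by
  have : ∀ i, 0 < (linking_symm a).eigenvalues i := fun i => h.eigenvalues_pos i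
  rw [bplus, Fintype.card_subtype]
  simp [this]

lemma bminus_of_posDef (a : List ℤ) (h : (linking a).PosDef) : bminus a = 0 := by
  have : ∀ i, 0 < (linking_symm a).eigenvalues i := fun i => h.eigenvalues_pos i
  rw [bminus, Fintype.card_subtype]
  simp [fun i => (this i).le]

lemma posDef1 : (linking [5]).PosDef := by
  refine Matrix.PosDef.of_dotProduct_mulVec_pos (linking_symm _) ?_
  intro x hx
  have h0 : x 0 ≠ 0 := by
    intro h; apply hx; ext i; fin_cases i; exact h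
  simp [linking, dotProduct, Matrix.mulVec, Fin.sum_univ_succ]
  have := mul_self_pos.mpr h0
  nlinarith

lemma posDef2 : (linking [3, 2]).PosDef := by
  refine Matrix.PosDef.of_dotProduct_mulVec_pos (linking_symm _) ?_
  intro x hx
  have h0 : x 0 ≠ 0 ∨ x 1 ≠ 0 := by
    by_contra h
    push Not at h
    apply hx; ext i; fin_cases i
    · exact h.1
    · exact h.2
  simp [linking, dotProduct, Matrix.mulVec, Fin.sum_univ_succ]
  rcases h0 with h | h
  · have := mul_self_pos.mpr h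
    nlinarith [sq_nonneg (x 0 + 2 * x 1)]
  · have := mul_self_pos.mpr h
    nlinarith [sq_nonneg (3 * x 0 + x 1)]


/-! ## The sums over a general commutative ring -/
section ringside


variable {R : Type*} [CommRing R]

abbrev Q4 := ℕ × ℕ × ℕ × ℕ

def T (t : Q4) : Fin 5 → ℕ := ![t.1, t.2.1, t.2.2.1, t.2.2.2, 0]

def SV (u : R) (l m : Fin 5 → ℕ) : R :=
  Matrix.det (Matrix.of fun i j : Fin 5 => (u ^ 90) ^ (l i * m j)) * u ^ (2 * ((∑ i, l i) * ∑ i, m i))

def thV (u : R) (l : Fin 5 → ℕ) : R :=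
  u ^ (5 * (∑ i, l i * l i) + 99 * ((∑ i, l i) * ∑ i, l i) + 50)

def L : List Q4 :=
  (List.range 10).flatMap fun a => (List.range a).flatMap fun b => (List.range b).flatMap fun c =>
    ((List.range c).filter (fun d => decide (0 < d))).map fun d => (a, b, c, d)

lemma mem_L (t : Q4) : t ∈ L ↔ t.1 < 10 ∧ t.2.1 < t.1 ∧ t.2.2.1 < t.2.1 ∧ t.2.2.2 < t.2.2.1 ∧ 0 < t.2.2.2 := by
  obtain ⟨a, b, c, d⟩ := t
  simp [L, List.mem_flatMap, and_assoc]

def code (t : Q4) : ℕ := 1000 * t.1 + 100 * t.2.1 + 10 * t.2.2.1 + t.2.2.2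

lemma chain_L : List.IsChain (· < ·) (L.map code) := by decide +kernel

lemma nodup_L : L.Nodup := by
  have h : (L.map code).Pairwise (· < ·) := List.isChain_iff_pairwise.mp chain_L
  exact List.Nodup.of_map code (h.imp (fun h => ne_of_lt h))

lemma T_inj : Function.Injective T := by
  intro s t h
  obtain ⟨a, b, c, d⟩ := s
  obtain ⟨a', b', c', d'⟩ := t
  have h0 := congrFun h 0
  have h1 := congrFun h 1
  have h2 := congrFun h 2
  have h3 := congrFun h 3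
  simp [T] at h0 h1 h2 h3
  simp [h0, h1, h2, h3]

lemma colours_eq : colours 5 10 = (L.toFinset).image T := by
  ext l
  simp only [colours, mem_filter, Fintype.mem_piFinset, mem_range, mem_image, List.mem_toFinset, mem_L]
  constructor
  · rintro ⟨h1, h2, h3⟩
    refine ⟨(l 0, l 1, l 2, l 3), ⟨h1 0, h2 (by decide), h2 (by decide), h2 (by decide), ?_⟩, ?_⟩
    · exact lt_of_le_of_lt (Nat.zero_le (l 4)) (h2 (show (3 : Fin 5) < 4 by decide))
    · ext i
      have := h3 4 (by decide)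
      fin_cases i <;> simp [T, this]
  · rintro ⟨t, ⟨h1, h2, h3, h4, h5⟩, rfl⟩
    refine ⟨?_, ?_, ?_⟩
    · intro i
      fin_cases i <;> simp [T] <;> omega
    · rw [Fin.strictAnti_iff_succ_lt]
      intro i
      fin_cases i <;> simp [T] <;> omega
    · intro i hi
      fin_cases i <;> simp [T] at hi ⊢

lemma sum_colours {M : Type*} [AddCommMonoid M] (f : (Fin 5 → ℕ) → M) :
    ∑ l ∈ colours 5 10, f l = (L.map fun t => f (T t)).sum := by
  rw [colours_eq, Finset.sum_image (fun a _ b _ h => T_inj h), List.sum_toFinset _ nodup_L]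


/-! the 5x5 determinant with last row and column equal to 1 -/

lemma det5 (a00 a01 a02 a03 a10 a11 a12 a13 a20 a21 a22 a23 a30 a31 a32 a33 : R) :
    Matrix.det !![a00+1, a01+1, a02+1, a03+1, 1; a10+1, a11+1, a12+1, a13+1, 1;
      a20+1, a21+1, a22+1, a23+1, 1; a30+1, a31+1, a32+1, a33+1, 1; 1, 1, 1, 1, 1] =
    ((a00*a11-a01*a10)*(a22*a33-a23*a32)
    -(a00*a12-a02*a10)*(a21*a33-a23*a31)
    +(a00*a13-a03*a10)*(a21*a32-a22*a31)
    +(a01*a12-a02*a11)*(a20*a33-a23*a30)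
    -(a01*a13-a03*a11)*(a20*a32-a22*a30)
    +(a02*a13-a03*a12)*(a20*a31-a21*a30)) := by
  have h1 : Matrix.det !![a00+1, a01+1, a02+1, a03+1, 1; a10+1, a11+1, a12+1, a13+1, 1;
      a20+1, a21+1, a22+1, a23+1, 1; a30+1, a31+1, a32+1, a33+1, 1; 1, 1, 1, 1, 1] =
      Matrix.det !![a00, a01, a02, a03, 0; a10, a11, a12, a13, 0;
      a20, a21, a22, a23, 0; a30, a31, a32, a33, 0; 1, 1, 1, 1, 1] := by
    refine Matrix.det_eq_of_forall_row_eq_smul_add_const (fun i => if i = 4 then 0 else 1) 4 (by simp) ?_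
    intro i j
    fin_cases i <;> fin_cases j <;> simp
  rw [h1, Matrix.det_succ_column _ 4]
  simp [Fin.sum_univ_succ, Matrix.det_succ_row_zero, Fin.succAbove]
  ring


/-! evaluation in ZMod 101 by natural number arithmetic -/

def pw (u k : ℕ) : ℕ := u ^ (k % 100) % 101

def en (u x y : ℕ) : ℕ := (u ^ 90 % 101) ^ (x * y) + 100

def P16 (a00 a01 a02 a03 a10 a11 a12 a13 a20 a21 a22 a23 a30 a31 a32 a33 : ℕ) : ℕ :=
  ((a00*a11+100*(a01*a10))*(a22*a33+100*(a23*a32))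
  +100*((a00*a12+100*(a02*a10))*(a21*a33+100*(a23*a31)))
  +(a00*a13+100*(a03*a10))*(a21*a32+100*(a22*a31))
  +(a01*a12+100*(a02*a11))*(a20*a33+100*(a23*a30))
  +100*((a01*a13+100*(a03*a11))*(a20*a32+100*(a22*a30)))
  +(a02*a13+100*(a03*a12))*(a20*a31+100*(a21*a30))) % 101

def det4 (u : ℕ) (l m : Q4) : ℕ :=
  P16 (en u l.1 m.1) (en u l.1 m.2.1) (en u l.1 m.2.2.1) (en u l.1 m.2.2.2) (en u l.2.1 m.1) (en u l.2.1 m.2.1) (en u l.2.1 m.2.2.1) (en u l.2.1 m.2.2.2) (en u l.2.2.1 m.1) (en u l.2.2.1 m.2.1) (en u l.2.2.1 m.2.2.1) (en u l.2.2.1 m.2.2.2) (en u l.2.2.2 m.1) (en u l.2.2.2 m.2.1) (en u l.2.2.2 m.2.2.1) (en u l.2.2.2 m.2.2.2)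

def sm (l : Q4) : ℕ := l.1 + l.2.1 + l.2.2.1 + l.2.2.2
def sq (l : Q4) : ℕ := l.1*l.1 + l.2.1*l.2.1 + l.2.2.1*l.2.2.1 + l.2.2.2*l.2.2.2

def SN (u : ℕ) (l m : Q4) : ℕ := det4 u l m * pw u (2 * (sm l * sm m)) % 101
def thN (u : ℕ) (k : ℕ) (l : Q4) : ℕ := pw u (k * (5 * sq l + 99 * (sm l * sm l) + 50))

lemma cast_mod (n : ℕ) : ((n % 101 : ℕ) : ZMod 101) = (n : ZMod 101) := by
  simp

lemma cast_pw (u k : ℕ) (hu : (u : ZMod 101) ^ 100 = 1) : ((pw u k : ℕ) : ZMod 101) = (u : ZMod 101) ^ k := by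
  rw [pw, cast_mod, Nat.cast_pow]
  conv_rhs => rw [← Nat.div_add_mod k 100, pow_add, pow_mul, hu, one_pow, one_mul]

lemma hundred' : ((100 : ℕ) : ZMod 101) = -1 := by decide

lemma cast_P16 (a00 a01 a02 a03 a10 a11 a12 a13 a20 a21 a22 a23 a30 a31 a32 a33 : ℕ) : ((P16 a00 a01 a02 a03 a10 a11 a12 a13 a20 a21 a22 a23 a30 a31 a32 a33 : ℕ) : ZMod 101) =
    (((a00:ZMod 101)*a11-a01*a10)*(a22*a33-a23*a32)
    -(a00*a12-a02*a10)*(a21*a33-a23*a31)
    +(a00*a13-a03*a10)*(a21*a32-a22*a31)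
    +(a01*a12-a02*a11)*(a20*a33-a23*a30)
    -(a01*a13-a03*a11)*(a20*a32-a22*a30)
    +(a02*a13-a03*a12)*(a20*a31-a21*a30)) := by
  rw [P16, cast_mod]
  simp only [Nat.cast_add, Nat.cast_mul, hundred', neg_one_mul, ← sub_eq_add_neg]

lemma cast_en (u x y : ℕ) :
    ((u : ZMod 101) ^ 90) ^ (x * y) = ((en u x y : ℕ) : ZMod 101) + 1 := by
  rw [en, Nat.cast_add, Nat.cast_pow, cast_mod, Nat.cast_pow, hundred']
  ring

lemma sumT (l : Q4) : ∑ i, T l i = sm l := by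
  simp [T, Fin.sum_univ_succ, sm]; ring

lemma sumsqT (l : Q4) : ∑ i, T l i * T l i = sq l := by
  simp [T, Fin.sum_univ_succ, sq]; ring

lemma cast_SN (u : ℕ) (l m : Q4) (hu : (u : ZMod 101) ^ 100 = 1) :
    SV (u : ZMod 101) (T l) (T m) = ((SN u l m : ℕ) : ZMod 101) := by
  have hM : (Matrix.of fun i j : Fin 5 => ((u : ZMod 101) ^ 90) ^ (T l i * T m j)) =
      !![(en u l.1 m.1 : ZMod 101)+1, (en u l.1 m.2.1 : ZMod 101)+1, (en u l.1 m.2.2.1 : ZMod 101)+1, (en u l.1 m.2.2.2 : ZMod 101)+1, 1;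
        (en u l.2.1 m.1 : ZMod 101)+1, (en u l.2.1 m.2.1 : ZMod 101)+1, (en u l.2.1 m.2.2.1 : ZMod 101)+1, (en u l.2.1 m.2.2.2 : ZMod 101)+1, 1;
        (en u l.2.2.1 m.1 : ZMod 101)+1, (en u l.2.2.1 m.2.1 : ZMod 101)+1, (en u l.2.2.1 m.2.2.1 : ZMod 101)+1, (en u l.2.2.1 m.2.2.2 : ZMod 101)+1, 1;
        (en u l.2.2.2 m.1 : ZMod 101)+1, (en u l.2.2.2 m.2.1 : ZMod 101)+1, (en u l.2.2.2 m.2.2.1 : ZMod 101)+1, (en u l.2.2.2 m.2.2.2 : ZMod 101)+1, 1;
        1, 1, 1, 1, 1] := by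
    ext i j
    fin_cases i <;> fin_cases j <;> first | (simp [T]; done) | exact cast_en u _ _
  rw [SV, hM, det5, sumT, sumT, SN, cast_mod, Nat.cast_mul, cast_pw _ _ hu, det4, cast_P16]

lemma cast_thN (u k : ℕ) (l : Q4) (hu : (u : ZMod 101) ^ 100 = 1) :
    thV (u : ZMod 101) (T l) ^ k = ((thN u k l : ℕ) : ZMod 101) := by
  rw [thN, cast_pw _ _ hu, thV, sumT, sumsqT, ← pow_mul]
  ring_nf


def rhoN : Q4 := (4, 3, 2, 1)

lemma rho_eq : rho 5 = T rhoN := by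
  ext i; fin_cases i <;> rfl

def S0 (u : R) : R := SV u (rho 5) (rho 5)
def CV (u : R) : R := ∑ l ∈ colours 5 10, SV u l (rho 5) ^ 2 * thV u l
def X1V (u : R) : R := ∑ l ∈ colours 5 10, SV u (rho 5) l * thV u l ^ 5 * SV u l (rho 5)
def X2V (u : R) : R := ∑ l ∈ colours 5 10, SV u (rho 5) l * thV u l ^ 3 *
  ∑ m ∈ colours 5 10, SV u l m * thV u m ^ 2 * SV u m (rho 5)

section hom
variable {R' : Type*} [CommRing R'] (f : R →+* R')

lemma map_SV (u : R) (l m : Fin 5 → ℕ) : f (SV u l m) = SV (f u) l m := by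
  have h : (Matrix.of fun i j : Fin 5 => (u ^ 90) ^ (l i * m j)).map f =
      Matrix.of fun i j : Fin 5 => ((f u) ^ 90) ^ (l i * m j) := by
    ext i j; simp
  rw [SV, map_mul, RingHom.map_det, RingHom.mapMatrix_apply, h, map_pow, SV]

lemma map_thV (u : R) (l : Fin 5 → ℕ) : f (thV u l) = thV (f u) l := by
  simp [thV, map_pow]

lemma map_S0 (u : R) : f (S0 u) = S0 (f u) := map_SV f u _ _

lemma map_CV (u : R) : f (CV u) = CV (f u) := by
  simp [CV, map_sum, map_SV, map_thV]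

lemma map_X1V (u : R) : f (X1V u) = X1V (f u) := by
  simp [X1V, map_sum, map_SV, map_thV]

lemma map_X2V (u : R) : f (X2V u) = X2V (f u) := by
  simp [X2V, map_sum, map_SV, map_thV]

end hom

def CN (u : ℕ) : ℕ := (L.map fun l => SN u l rhoN ^ 2 * thN u 1 l).sum % 101
def X1N (u : ℕ) : ℕ := (L.map fun l => SN u rhoN l * thN u 5 l * SN u l rhoN).sum % 101

/-- A symmetric double sum over a list, computed from half of the pairs. -/
def pairSum : List (ℕ × ℕ × Q4) → (Q4 → Q4 → ℕ) → ℕ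
  | [], _ => 0
  | x :: xs, s => x.1 * x.2.1 * s x.2.2 x.2.2 +
      (xs.map fun y => (x.1 * y.2.1 + y.1 * x.2.1) * s x.2.2 y.2.2).sum + pairSum xs s

def WN (u : ℕ) : List (ℕ × ℕ × Q4) :=
  L.map fun l => (SN u rhoN l * thN u 3 l % 101, thN u 2 l * SN u l rhoN % 101, l)

def X2N (u : ℕ) : ℕ := pairSum (WN u) (SN u) % 101

lemma cast_list_sum (g : Q4 → ℕ) (K : List Q4) :
    (((K.map g).sum : ℕ) : ZMod 101) = (K.map fun t => ((g t : ℕ) : ZMod 101)).sum := by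
  rw [Nat.cast_list_sum, List.map_map]; rfl

lemma cast_CN (u : ℕ) (hu : (u : ZMod 101) ^ 100 = 1) : CV (u : ZMod 101) = ((CN u : ℕ) : ZMod 101) := by
  rw [CV, CN, sum_colours, cast_mod, cast_list_sum]
  refine congrArg List.sum (List.map_congr_left fun t _ => ?_)
  rw [rho_eq, cast_SN _ _ _ hu, Nat.cast_mul, ← cast_thN _ _ _ hu, pow_one, Nat.cast_pow]

lemma cast_X1N (u : ℕ) (hu : (u : ZMod 101) ^ 100 = 1) : X1V (u : ZMod 101) = ((X1N u : ℕ) : ZMod 101) := by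
  rw [X1V, X1N, sum_colours, cast_mod, cast_list_sum]
  refine congrArg List.sum (List.map_congr_left fun t _ => ?_)
  rw [rho_eq, cast_SN _ _ _ hu, cast_SN _ _ _ hu, Nat.cast_mul, Nat.cast_mul, ← cast_thN _ _ _ hu]

lemma pairSum_eq (s : Q4 → Q4 → ℕ) (t : Q4 → Q4 → ZMod 101) (hs : ∀ x y, ((s x y : ℕ) : ZMod 101) = t x y)
    (ht : ∀ x y, t x y = t y x) (K : List (ℕ × ℕ × Q4)) :
    ((pairSum K s : ℕ) : ZMod 101) =
      (K.map fun x => (x.1 : ZMod 101) * (K.map fun y => t x.2.2 y.2.2 * (y.2.1 : ZMod 101)).sum).sum := by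
  induction K with
  | nil => simp [pairSum]
  | cons x xs ih =>
    rw [pairSum, Nat.cast_add, Nat.cast_add, ih, Nat.cast_list_sum]
    simp only [List.map_cons, List.sum_cons, List.map_map, Function.comp_def, Nat.cast_mul, Nat.cast_add, hs,
      mul_add, List.sum_map_add, add_mul]
    have h2 : (xs.map fun y : ℕ × ℕ × Q4 => (y.1 : ZMod 101) * (x.2.1 : ZMod 101) * t x.2.2 y.2.2).sum =
      (xs.map fun y : ℕ × ℕ × Q4 => (y.1 : ZMod 101) * (t y.2.2 x.2.2 * (x.2.1 : ZMod 101))).sum := by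
      refine congrArg List.sum (List.map_congr_left fun y _ => ?_)
      rw [ht x.2.2 y.2.2]; ring
    have h3 : (xs.map fun y : ℕ × ℕ × Q4 => (x.1 : ZMod 101) * (y.2.1 : ZMod 101) * t x.2.2 y.2.2).sum =
      (x.1 : ZMod 101) * (xs.map fun y : ℕ × ℕ × Q4 => t x.2.2 y.2.2 * (y.2.1 : ZMod 101)).sum := by
      rw [← List.sum_map_mul_left]
      refine congrArg List.sum (List.map_congr_left fun y _ => ?_)
      ring
    rw [h2, h3]
    ring

lemma SV_symm (u : R) (l m : Fin 5 → ℕ) : SV u l m = SV u m l := by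
  rw [SV, SV, ← Matrix.det_transpose]
  have h : (Matrix.of fun i j : Fin 5 => (u ^ 90) ^ (l i * m j)).transpose =
      Matrix.of fun i j : Fin 5 => (u ^ 90) ^ (m i * l j) := by
    ext i j
    simp [mul_comm]
  rw [h, mul_comm (∑ i, l i)]

lemma pairSum_map (K : List Q4) (A B : Q4 → ℕ) (s : Q4 → Q4 → ℕ) (t : Q4 → Q4 → ZMod 101)
    (a b : Q4 → ZMod 101) (hA : ∀ x, ((A x : ℕ) : ZMod 101) = a x) (hB : ∀ x, ((B x : ℕ) : ZMod 101) = b x)
    (hs : ∀ x y, ((s x y : ℕ) : ZMod 101) = t x y) (ht : ∀ x y, t x y = t y x) :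
    ((pairSum (K.map fun l => (A l % 101, B l % 101, l)) s : ℕ) : ZMod 101) =
      (K.map fun x => a x * (K.map fun y => t x y * b y).sum).sum := by
  rw [pairSum_eq s t hs ht, List.map_map]
  refine congrArg List.sum (List.map_congr_left fun x _ => ?_)
  simp only [Function.comp_apply, List.map_map, cast_mod, hA]
  refine congrArg (a x * ·) (congrArg List.sum (List.map_congr_left fun y _ => ?_))
  simp only [Function.comp_apply, cast_mod, hB]

lemma cast_X2N (u : ℕ) (hu : (u : ZMod 101) ^ 100 = 1) : X2V (u : ZMod 101) = ((X2N u : ℕ) : ZMod 101) := by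
  have h := pairSum_map L (fun l => SN u rhoN l * thN u 3 l) (fun l => thN u 2 l * SN u l rhoN) (SN u)
    (fun x y => SV (u : ZMod 101) (T x) (T y))
    (fun l => SV (u : ZMod 101) (T rhoN) (T l) * thV (u : ZMod 101) (T l) ^ 3)
    (fun l => thV (u : ZMod 101) (T l) ^ 2 * SV (u : ZMod 101) (T l) (T rhoN))
    (fun l => by rw [Nat.cast_mul, ← cast_thN _ _ _ hu, ← cast_SN _ _ _ hu])
    (fun l => by rw [Nat.cast_mul, ← cast_thN _ _ _ hu, ← cast_SN _ _ _ hu])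
    (fun x y => (cast_SN u x y hu).symm) (fun x y => SV_symm _ _ _)
  rw [X2N, cast_mod, WN, h, X2V, sum_colours]
  refine congrArg List.sum (List.map_congr_left fun t _ => ?_)
  rw [sum_colours, rho_eq]
  refine congrArg _ (congrArg List.sum (List.map_congr_left fun s _ => ?_))
  rw [mul_assoc]

lemma cast_S0 (u : ℕ) (hu : (u : ZMod 101) ^ 100 = 1) : S0 (u : ZMod 101) = ((SN u rhoN rhoN : ℕ) : ZMod 101) := by
  rw [S0, rho_eq, cast_SN _ _ _ hu]




end ringside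

def W2 : List (ℕ × ℕ × Q4) :=
    [(33, 33, 4, 3, 2, 1), (98, 60, 5, 3, 2, 1), (98, 66, 5, 4, 2, 1), (98, 66, 5, 4, 3, 1), (98, 60, 5, 4, 3, 2),
    (42, 53, 6, 3, 2, 1), (89, 69, 6, 4, 2, 1), (34, 26, 6, 4, 3, 1), (78, 23, 6, 4, 3, 2), (79, 84, 6, 5, 2, 1),
    (88, 78, 6, 5, 3, 1), (34, 26, 6, 5, 3, 2), (79, 84, 6, 5, 4, 1), (89, 69, 6, 5, 4, 2), (42, 53, 6, 5, 4, 3),
    (51, 8, 7, 3, 2, 1), (99, 63, 7, 4, 2, 1), (13, 13, 7, 4, 3, 1), (29, 27, 7, 4, 3, 2), (78, 88, 7, 5, 2, 1),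
    (15, 42, 7, 5, 3, 1), (80, 68, 7, 5, 3, 2), (99, 39, 7, 5, 4, 1), (80, 68, 7, 5, 4, 2), (29, 27, 7, 5, 4, 3),
    (71, 1, 7, 6, 2, 1), (28, 91, 7, 6, 3, 1), (99, 39, 7, 6, 3, 2), (28, 91, 7, 6, 4, 1), (15, 42, 7, 6, 4, 2),
    (13, 13, 7, 6, 4, 3), (71, 1, 7, 6, 5, 1), (78, 88, 7, 6, 5, 2), (99, 63, 7, 6, 5, 3), (51, 8, 7, 6, 5, 4),
    (42, 39, 8, 3, 2, 1), (78, 23, 8, 4, 2, 1), (12, 40, 8, 4, 3, 1), (2, 91, 8, 4, 3, 2), (34, 26, 8, 5, 2, 1),
    (54, 97, 8, 5, 3, 1), (25, 56, 8, 5, 3, 2), (12, 44, 8, 5, 4, 1), (93, 98, 8, 5, 4, 2), (78, 88, 8, 5, 4, 3),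
    (67, 60, 8, 6, 2, 1), (52, 58, 8, 6, 3, 1), (11, 94, 8, 6, 3, 2), (48, 51, 8, 6, 4, 1), (87, 14, 8, 6, 4, 2),
    (93, 98, 8, 6, 4, 3), (88, 78, 8, 6, 5, 1), (11, 94, 8, 6, 5, 2), (25, 56, 8, 6, 5, 3), (2, 91, 8, 6, 5, 4),
    (94, 86, 8, 7, 2, 1), (99, 63, 8, 7, 3, 1), (88, 78, 8, 7, 3, 2), (13, 13, 8, 7, 4, 1), (48, 51, 8, 7, 4, 2),
    (12, 44, 8, 7, 4, 3), (99, 63, 8, 7, 5, 1), (52, 58, 8, 7, 5, 2), (54, 97, 8, 7, 5, 3), (12, 40, 8, 7, 5, 4),
    (94, 86, 8, 7, 6, 1), (67, 60, 8, 7, 6, 2), (34, 26, 8, 7, 6, 3), (78, 23, 8, 7, 6, 4), (42, 39, 8, 7, 6, 5),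
    (33, 33, 9, 3, 2, 1), (94, 69, 9, 4, 2, 1), (51, 8, 9, 4, 3, 1), (18, 90, 9, 4, 3, 2), (94, 86, 9, 5, 2, 1),
    (72, 39, 9, 5, 3, 1), (29, 27, 9, 5, 3, 2), (5, 95, 9, 5, 4, 1), (88, 78, 9, 5, 4, 2), (16, 36, 9, 5, 4, 3),
    (98, 66, 9, 6, 2, 1), (28, 46, 9, 6, 3, 1), (13, 13, 9, 6, 3, 2), (78, 88, 9, 6, 4, 1), (35, 18, 9, 6, 4, 2),
    (34, 69, 9, 6, 4, 3), (31, 87, 9, 6, 5, 1), (29, 60, 9, 6, 5, 2), (34, 69, 9, 6, 5, 3), (16, 36, 9, 6, 5, 4),
    (18, 91, 9, 7, 2, 1), (78, 23, 9, 7, 3, 1), (28, 46, 9, 7, 3, 2), (12, 40, 9, 7, 4, 1), (92, 24, 9, 7, 4, 2),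
    (29, 60, 9, 7, 4, 3), (73, 44, 9, 7, 5, 1), (92, 24, 9, 7, 5, 2), (35, 18, 9, 7, 5, 3), (88, 78, 9, 7, 5, 4),
    (42, 53, 9, 7, 6, 1), (28, 46, 9, 7, 6, 2), (13, 13, 9, 7, 6, 3), (29, 27, 9, 7, 6, 4), (18, 90, 9, 7, 6, 5),
    (33, 33, 9, 8, 2, 1), (51, 44, 9, 8, 3, 1), (42, 53, 9, 8, 3, 2), (18, 90, 9, 8, 4, 1), (73, 44, 9, 8, 4, 2),
    (31, 87, 9, 8, 4, 3), (18, 90, 9, 8, 5, 1), (12, 40, 9, 8, 5, 2), (78, 88, 9, 8, 5, 3), (5, 95, 9, 8, 5, 4),
    (51, 44, 9, 8, 6, 1), (78, 23, 9, 8, 6, 2), (28, 46, 9, 8, 6, 3), (72, 39, 9, 8, 6, 4), (51, 8, 9, 8, 6, 5),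
    (33, 33, 9, 8, 7, 1), (18, 91, 9, 8, 7, 2), (98, 66, 9, 8, 7, 3), (94, 86, 9, 8, 7, 4), (94, 69, 9, 8, 7, 5),
    (33, 33, 9, 8, 7, 6)]

def W51 : List (ℕ × ℕ × Q4) :=
    [(33, 33, 4, 3, 2, 1), (91, 51, 5, 3, 2, 1), (8, 18, 5, 4, 2, 1), (8, 18, 5, 4, 3, 1), (91, 51, 5, 4, 3, 2),
    (86, 51, 6, 3, 2, 1), (10, 29, 6, 4, 2, 1), (63, 28, 6, 4, 3, 1), (78, 23, 6, 4, 3, 2), (87, 71, 6, 5, 2, 1),
    (78, 88, 6, 5, 3, 1), (63, 28, 6, 5, 3, 2), (87, 71, 6, 5, 4, 1), (10, 29, 6, 5, 4, 2), (86, 51, 6, 5, 4, 3),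
    (53, 98, 7, 3, 2, 1), (40, 34, 7, 4, 2, 1), (13, 13, 7, 4, 3, 1), (46, 12, 7, 4, 3, 2), (88, 78, 7, 5, 2, 1),
    (7, 53, 7, 5, 3, 1), (97, 25, 7, 5, 3, 2), (69, 12, 7, 5, 4, 1), (97, 25, 7, 5, 4, 2), (46, 12, 7, 5, 4, 3),
    (84, 5, 7, 6, 2, 1), (60, 34, 7, 6, 3, 1), (69, 12, 7, 6, 3, 2), (60, 34, 7, 6, 4, 1), (7, 53, 7, 6, 4, 2),
    (13, 13, 7, 6, 4, 3), (84, 5, 7, 6, 5, 1), (88, 78, 7, 6, 5, 2), (40, 34, 7, 6, 5, 3), (53, 98, 7, 6, 5, 4),
    (44, 94, 8, 3, 2, 1), (78, 23, 8, 4, 2, 1), (27, 99, 8, 4, 3, 1), (41, 12, 8, 4, 3, 2), (63, 28, 8, 5, 2, 1),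
    (24, 80, 8, 5, 3, 1), (68, 52, 8, 5, 3, 2), (39, 29, 8, 5, 4, 1), (50, 66, 8, 5, 4, 2), (88, 78, 8, 5, 4, 3),
    (57, 99, 8, 6, 2, 1), (56, 92, 8, 6, 3, 1), (83, 86, 8, 6, 3, 2), (59, 8, 8, 6, 4, 1), (87, 14, 8, 6, 4, 2),
    (50, 66, 8, 6, 4, 3), (78, 88, 8, 6, 5, 1), (83, 86, 8, 6, 5, 2), (68, 52, 8, 6, 5, 3), (41, 12, 8, 6, 5, 4),
    (90, 42, 8, 7, 2, 1), (40, 34, 8, 7, 3, 1), (78, 88, 8, 7, 3, 2), (13, 13, 8, 7, 4, 1), (59, 8, 8, 7, 4, 2),
    (39, 29, 8, 7, 4, 3), (40, 34, 8, 7, 5, 1), (56, 92, 8, 7, 5, 2), (24, 80, 8, 7, 5, 3), (27, 99, 8, 7, 5, 4),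
    (90, 42, 8, 7, 6, 1), (57, 99, 8, 7, 6, 2), (63, 28, 8, 7, 6, 3), (78, 23, 8, 7, 6, 4), (44, 94, 8, 7, 6, 5),
    (33, 33, 9, 3, 2, 1), (39, 18, 9, 4, 2, 1), (53, 98, 9, 4, 3, 1), (66, 94, 9, 4, 3, 2), (90, 42, 9, 5, 2, 1),
    (32, 28, 9, 5, 3, 1), (46, 12, 9, 5, 3, 2), (1, 16, 9, 5, 4, 1), (78, 88, 9, 5, 4, 2), (95, 31, 9, 5, 4, 3),
    (8, 18, 9, 6, 2, 1), (26, 29, 9, 6, 3, 1), (13, 13, 9, 6, 3, 2), (88, 78, 9, 6, 4, 1), (3, 90, 9, 6, 4, 2),
    (91, 99, 9, 6, 4, 3), (36, 79, 9, 6, 5, 1), (44, 28, 9, 6, 5, 2), (91, 99, 9, 6, 5, 3), (95, 31, 9, 6, 5, 4),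
    (69, 98, 9, 7, 2, 1), (78, 23, 9, 7, 3, 1), (26, 29, 9, 7, 3, 2), (27, 99, 9, 7, 4, 1), (58, 54, 9, 7, 4, 2),
    (44, 28, 9, 7, 4, 3), (62, 34, 9, 7, 5, 1), (58, 54, 9, 7, 5, 2), (3, 90, 9, 7, 5, 3), (78, 88, 9, 7, 5, 4),
    (86, 51, 9, 7, 6, 1), (26, 29, 9, 7, 6, 2), (13, 13, 9, 7, 6, 3), (46, 12, 9, 7, 6, 4), (66, 94, 9, 7, 6, 5),
    (33, 33, 9, 8, 2, 1), (60, 42, 9, 8, 3, 1), (86, 51, 9, 8, 3, 2), (66, 94, 9, 8, 4, 1), (62, 34, 9, 8, 4, 2),
    (36, 79, 9, 8, 4, 3), (66, 94, 9, 8, 5, 1), (27, 99, 9, 8, 5, 2), (88, 78, 9, 8, 5, 3), (1, 16, 9, 8, 5, 4),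
    (60, 42, 9, 8, 6, 1), (78, 23, 9, 8, 6, 2), (26, 29, 9, 8, 6, 3), (32, 28, 9, 8, 6, 4), (53, 98, 9, 8, 6, 5),
    (33, 33, 9, 8, 7, 1), (69, 98, 9, 8, 7, 2), (8, 18, 9, 8, 7, 3), (90, 42, 9, 8, 7, 4), (39, 18, 9, 8, 7, 5),
    (33, 33, 9, 8, 7, 6)]

lemma W2_eq : WN 2 = W2 := eq_of_beq (by decide +kernel : (WN 2 == W2) = true)
lemma W51_eq : WN 51 = W51 := eq_of_beq (by decide +kernel : (WN 51 == W51) = true)
lemma ev_X2a : X2N 2 = 22 := by
  rw [X2N, W2_eq]; decide +kernel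
lemma ev_X2b : X2N 51 = 22 := by
  rw [X2N, W51_eq]; decide +kernel
lemma ev_X1a : X1N 2 = 9 := by decide +kernel
lemma ev_X1b : X1N 51 = 19 := by decide +kernel
lemma ev_Ca : CN 2 = 71 := by decide +kernel
lemma ev_Cb : CN 51 = 71 := by decide +kernel
lemma ev_Sa : SN 2 rhoN rhoN = 33 := by decide +kernel
lemma ev_Sb : SN 51 rhoN rhoN = 33 := by decide +kernel

/-! ## The ring of integers of the 100th cyclotomic field -/


noncomputable def zeta : ℂ := Complex.exp (2 * Real.pi * Complex.I / 100)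

lemma zeta_prim : IsPrimitiveRoot zeta 100 := by
  have := Complex.isPrimitiveRoot_exp 100 (by norm_num)
  simpa [zeta] using this

lemma two_pow : ((2 : ℕ) : ZMod 101) ^ 100 = 1 := by decide +kernel
lemma ff_pow : ((51 : ℕ) : ZMod 101) ^ 100 = 1 := by decide +kernel
lemma two_pow99 : (2 : ZMod 101) ^ 99 = 51 := by decide +kernel

instance : Fact (Nat.Prime 101) := ⟨by norm_num⟩

lemma two_prim : IsPrimitiveRoot (2 : ZMod 101) 100 := by
  have h : orderOf (2 : ZMod 101) = 100 := by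
    refine orderOf_eq_of_pow_and_pow_div_prime (by norm_num) (by decide +kernel) ?_
    intro p hp hd
    have h1 : p ∈ Nat.primeFactors 100 := Nat.mem_primeFactors.mpr ⟨hp, hd, by norm_num⟩
    have h2 : Nat.primeFactors 100 = {2, 5} := by
      rw [show (100 : ℕ) = 2 ^ 2 * 5 ^ 2 by norm_num, Nat.primeFactors_mul (by norm_num) (by norm_num),
        Nat.primeFactors_prime_pow (by norm_num) (by norm_num), Nat.primeFactors_prime_pow (by norm_num) (by norm_num)]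
      rfl
    rw [h2] at h1
    simp at h1
    rcases h1 with rfl | rfl <;> decide +kernel
  rw [← h]; exact IsPrimitiveRoot.orderOf _

abbrev A : Type := AdjoinRoot (Polynomial.cyclotomic 100 ℤ)

noncomputable def toC : A →+* ℂ := AdjoinRoot.lift (Int.castRingHom ℂ) zeta (by
  have h := (Polynomial.isRoot_cyclotomic_iff (n := 100) (R := ℂ)).mpr zeta_prim
  rw [← Polynomial.map_cyclotomic_int, Polynomial.IsRoot.def, Polynomial.eval_map] at h
  exact h)

noncomputable def toF : A →+* ZMod 101 := AdjoinRoot.lift (Int.castRingHom (ZMod 101)) 2 (by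
  have : NeZero ((100 : ℕ) : ZMod 101) := ⟨by decide +kernel⟩
  have h := (Polynomial.isRoot_cyclotomic_iff (n := 100) (R := ZMod 101)).mpr two_prim
  rw [← Polynomial.map_cyclotomic_int, Polynomial.IsRoot.def, Polynomial.eval_map] at h
  exact h)

noncomputable def z : A := AdjoinRoot.root _

lemma toC_z : toC z = zeta := AdjoinRoot.lift_root _
lemma toF_z : toF z = 2 := AdjoinRoot.lift_root _

lemma toC_inj : Function.Injective toC := by
  rw [injective_iff_map_eq_zero]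
  intro x hx
  induction x using AdjoinRoot.induction_on with
  | ih p =>
    rw [toC, AdjoinRoot.lift_mk] at hx
    rw [AdjoinRoot.mk_eq_zero, Polynomial.cyclotomic_eq_minpoly zeta_prim (by norm_num)]
    refine minpoly.isIntegrallyClosed_dvd ?_ ?_
    · exact zeta_prim.isIntegral (by norm_num)
    · exact hx



/-! ## The complex side -/

lemma zeta_pow (k : ℕ) : zeta ^ k = Complex.exp (2 * Real.pi * Complex.I * k / 100) := by
  rw [zeta, ← Complex.exp_nat_mul]; congr 1; ring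

lemma exp_congr (x y : ℂ) (n : ℤ) (h : x = y + n * (2 * Real.pi * Complex.I)) :
    Complex.exp x = Complex.exp y := by
  rw [Complex.exp_eq_exp_iff_exists_int]; exact ⟨n, h⟩

lemma smat_eq (l m : Fin 5 → ℕ) : smat 10 l m = SV zeta l m := by
  unfold smat SV
  rw [Matrix.det_apply', Finset.sum_mul]
  refine Finset.sum_congr rfl fun w _ => ?_
  conv_rhs => rw [mul_assoc]
  congr 1
  simp only [Matrix.of_apply]
  rw [Finset.prod_pow_eq_pow_sum, ← pow_mul, ← pow_add, zeta_pow]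
  refine exp_congr _ _ (-(∑ i, l (w i) * m i : ℕ)) ?_
  have h1 : ∑ i, (l (w i) : ℝ) = ∑ i, (l i : ℝ) := Equiv.sum_comp w (fun i => (l i : ℝ))
  unfold ip
  simp only [Function.comp]
  rw [h1]
  push_cast
  field_simp
  ring

lemma twist_eq (l : Fin 5 → ℕ) : twist 10 l = thV zeta l := by
  unfold twist thV
  rw [zeta_pow]
  have h0 : ip (rho 5) (rho 5) = 10 := by
    simp [ip, rho, Fin.sum_univ_succ]; norm_num
  rw [h0]
  unfold ip
  refine exp_congr _ _ (-((∑ i, l i) * ∑ i, l i : ℕ)- 1) ?_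
  push_cast
  field_simp
  ring

lemma hopf_eq (l m : Fin 5 → ℕ) : hopf 10 l m = SV zeta l m / S0 zeta := by
  rw [hopf, smat_eq, smat_eq, S0]

lemma conj_zeta : (starRingEnd ℂ) zeta = zeta ^ 99 := by
  have h1 : zeta ^ 99 * zeta = 1 := by rw [← pow_succ]; exact zeta_prim.pow_eq_one
  have h2 : (starRingEnd ℂ) zeta * zeta = 1 := by
    rw [mul_comm, Complex.mul_conj, Complex.normSq_eq_norm_sq, zeta_prim.norm'_eq_one (by norm_num)]
    simp
  have h3 : zeta ≠ 0 := zeta_prim.ne_zero (by norm_num)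
  exact mul_right_cancel₀ h3 (h2.trans h1.symm)

/-- Transfer: an element of A that is nonzero in the field with 101 elements is nonzero in ℂ. -/
lemma toC_ne_zero (x : A) (h : toF x ≠ 0) : toC x ≠ 0 := by
  intro h0
  apply h
  have : x = 0 := toC_inj (by rw [h0, map_zero])
  rw [this, map_zero]

lemma natCast_two : ((2 : ℕ) : ZMod 101) = 2 := rfl
lemma toF_z99 : toF (z ^ 99) = ((51 : ℕ) : ZMod 101) := by
  rw [map_pow, toF_z, two_pow99]; rfl
lemma toF_z1 : toF z = ((2 : ℕ) : ZMod 101) := by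
  rw [toF_z]; rfl

lemma S0_ne : S0 zeta ≠ 0 := by
  rw [← toC_z, ← map_S0]
  apply toC_ne_zero
  rw [map_S0, toF_z1, cast_S0 2 two_pow, ev_Sa]
  decide

lemma CV_ne : CV zeta ≠ 0 := by
  rw [← toC_z, ← map_CV]
  apply toC_ne_zero
  rw [map_CV, toF_z1, cast_CN 2 two_pow, ev_Ca]
  decide

lemma X1V_ne : X1V zeta ≠ 0 := by
  rw [← toC_z, ← map_X1V]
  apply toC_ne_zero
  rw [map_X1V, toF_z1, cast_X1N 2 two_pow, ev_X1a]
  decide

lemma X2V_ne : X2V zeta ≠ 0 := by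
  rw [← toC_z, ← map_X2V]
  apply toC_ne_zero
  rw [map_X2V, toF_z1, cast_X2N 2 two_pow, ev_X2a]
  decide

lemma key_ne : X1V zeta * X1V (zeta ^ 99) * (CV zeta * CV (zeta ^ 99)) ≠
    X2V zeta * X2V (zeta ^ 99) * (S0 zeta * S0 (zeta ^ 99)) := by
  intro h
  have h2 : toC (X1V z * X1V (z ^ 99) * (CV z * CV (z ^ 99))) =
      toC (X2V z * X2V (z ^ 99) * (S0 z * S0 (z ^ 99))) := by
    simp only [map_mul, map_X1V, map_X2V, map_CV, map_S0, map_pow, toC_z]
    exact h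
  have h3 := congrArg toF (toC_inj h2)
  rw [map_mul, map_mul, map_mul, map_mul, map_mul, map_mul, map_X1V, map_X1V, map_X2V, map_X2V,
    map_CV, map_CV, map_S0, map_S0, toF_z1, toF_z99, cast_X1N 2 two_pow, cast_X1N 51 ff_pow,
    cast_X2N 2 two_pow, cast_X2N 51 ff_pow, cast_CN 2 two_pow, cast_CN 51 ff_pow,
    cast_S0 2 two_pow, cast_S0 51 ff_pow, ev_X1a, ev_X1b, ev_X2a, ev_X2b, ev_Ca, ev_Cb, ev_Sa, ev_Sb] at h3
  revert h3
  decide +kernel

lemma gauss_eq : gauss 5 10 1 = CV zeta / S0 zeta ^ 2 := by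
  rw [gauss, CV, Finset.sum_div]
  refine Finset.sum_congr rfl fun l _ => ?_
  rw [qdim, hopf_eq, twist_eq, zpow_one, div_pow]
  ring

lemma tau1_eq : tau 5 10 [5] = X1V zeta / CV zeta := by
  have hS := S0_ne
  have hC := CV_ne
  have h1 : chainSum 10 [5] (rho 5) = X1V zeta / S0 zeta ^ 2 := by
    rw [chainSum, X1V, Finset.sum_div]
    refine Finset.sum_congr rfl fun l _ => ?_
    rw [chainSum, hopf_eq, hopf_eq, twist_eq]
    rw [show (thV zeta l) ^ (5 : ℤ) = thV zeta l ^ 5 from zpow_natCast _ 5]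
    field_simp
  rw [tau, bplus_of_posDef _ posDef1, bminus_of_posDef _ posDef1, gauss_eq, h1]
  simp only [List.length_cons, List.length_nil, Nat.cast_zero, neg_zero, zpow_zero, mul_one,
    zero_add, Nat.cast_one, zpow_neg, zpow_one]
  field_simp

lemma tau2_eq : tau 5 10 [3, 2] = X2V zeta * S0 zeta / CV zeta ^ 2 := by
  have hS := S0_ne
  have hC := CV_ne
  have h1 : chainSum 10 [3, 2] (rho 5) = X2V zeta / S0 zeta ^ 3 := by
    rw [chainSum, X2V, Finset.sum_div]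
    refine Finset.sum_congr rfl fun l _ => ?_
    rw [chainSum, hopf_eq, twist_eq]
    rw [show (thV zeta l) ^ (3 : ℤ) = thV zeta l ^ 3 from zpow_natCast _ 3]
    have h2 : ∑ m ∈ colours 5 10, hopf 10 l m * twist 10 m ^ (2 : ℤ) * chainSum 10 [] m =
        (∑ m ∈ colours 5 10, SV zeta l m * thV zeta m ^ 2 * SV zeta m (rho 5)) / S0 zeta ^ 2 := by
      rw [Finset.sum_div]
      refine Finset.sum_congr rfl fun m _ => ?_
      rw [chainSum, hopf_eq, hopf_eq, twist_eq]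
      rw [show (thV zeta m) ^ (2 : ℤ) = thV zeta m ^ 2 from zpow_natCast _ 2]
      field_simp
    rw [h2]
    field_simp
  rw [tau, bplus_of_posDef _ posDef2, bminus_of_posDef _ posDef2, gauss_eq, h1]
  simp only [List.length_cons, List.length_nil, Nat.cast_zero, neg_zero, zpow_zero, mul_one]
  rw [show (-((0 + 1 + 1 : ℕ) : ℤ)) = -((2 : ℕ) : ℤ) by norm_num, zpow_neg, zpow_natCast]
  field_simp

lemma conj_X1V : (starRingEnd ℂ) (X1V zeta) = X1V (zeta ^ 99) := by rw [map_X1V, conj_zeta]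
lemma conj_X2V : (starRingEnd ℂ) (X2V zeta) = X2V (zeta ^ 99) := by rw [map_X2V, conj_zeta]
lemma conj_CV : (starRingEnd ℂ) (CV zeta) = CV (zeta ^ 99) := by rw [map_CV, conj_zeta]
lemma conj_S0 : (starRingEnd ℂ) (S0 zeta) = S0 (zeta ^ 99) := by rw [map_S0, conj_zeta]

lemma norm_ne : ‖tau 5 10 [5]‖ ≠ ‖tau 5 10 [3, 2]‖ := by
  rw [tau1_eq, tau2_eq]
  intro h
  have hC : ‖CV zeta‖ ≠ 0 := norm_ne_zero_iff.mpr CV_ne
  rw [norm_div, norm_div, norm_mul, norm_pow] at h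
  have h1 : ‖X1V zeta‖ * ‖CV zeta‖ = ‖X2V zeta‖ * ‖S0 zeta‖ := by
    field_simp at h
    linarith
  apply key_ne
  rw [← conj_X1V, ← conj_X2V, ← conj_CV, ← conj_S0, Complex.mul_conj, Complex.mul_conj, Complex.mul_conj,
    Complex.mul_conj, Complex.normSq_eq_norm_sq, Complex.normSq_eq_norm_sq, Complex.normSq_eq_norm_sq,
    Complex.normSq_eq_norm_sq]
  have h2 : ‖X1V zeta‖ ^ 2 * ‖CV zeta‖ ^ 2 = ‖X2V zeta‖ ^ 2 * ‖S0 zeta‖ ^ 2 := by
    rw [← mul_pow, ← mul_pow, h1]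
  exact_mod_cast h2

/-- The lens spaces L(5,1) and L(5,2) have isomorphic fundamental groups; they are given by surgery
along the chains [5] and [3, 2]; their quantum SU(5) invariants at r = 10 (level 5) are both nonzero
and have different absolute values. -/
theorem result :
    SamePi1 (LensSpace 5 1) (LensSpace 5 2) ∧
    chainFraction [5] = (5, 1) ∧ chainFraction [3, 2] = (5, 2) ∧
    tau 5 10 [5] ≠ 0 ∧ tau 5 10 [3, 2] ≠ 0 ∧ ‖tau 5 10 [5]‖ ≠ ‖tau 5 10 [3, 2]‖ := by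
  refine ⟨fun x y => ?_, by decide, by decide, ?_, ?_, norm_ne⟩
  · obtain ⟨e⟩ := pi1_lens 5 1 (by norm_num) x
    obtain ⟨f⟩ := pi1_lens 5 2 (by norm_num) y
    exact ⟨e.trans f.symm⟩
  · rw [tau1_eq]
    exact div_ne_zero X1V_ne CV_ne
  · rw [tau2_eq]
    exact div_ne_zero (mul_ne_zero X2V_ne S0_ne) (pow_ne_zero _ CV_ne)

end Pool.Agent.Results.MP_8121b4_gt.LensSU5
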